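import Pool.Agent.T9h57.HS.Cor
import Pool.Agent.Results.MP_807c24_nt.AlmostAllCoefficients

/-!
# MP_807c24_nt: relations between the coefficients of the KZ associator off few hyperplanes are identities

A pattern in `k` variables is a nonempty list of letters `b + u_1 s_1 + ... + u_k s_k`; at a tuple `s` of natural numbers
it gives an index. The first letters may be constant. The fronts of the pattern are the nonempty initial segments of the
list of its constant first letters. A family `(y, Z)` is an element `y` of a commutative `ℚ`-algebra and a function `Z` from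
the indices to the algebra with the stuffle product and with Euler's formula `Z(2 m) = - B_{2m} y ^ (2 m) / (2 (2 m)!)`; the
universal associator gives a family in `ℚ[M]` (Furusho), the KZ associator gives `2 π i` and the multiple zeta values.

Let `w_1, ..., w_r` be admissible patterns and `D` a degree. The tuple `s` is exceptional for `(y, Z)` and `H` if there is a
polynomial relation of degree at most `D` with integer coefficients at most `H` between `2 π i` and the multiple zeta values
of the patterns AT `s` which fails for `(y, Z)` at SOME tuple `s'` of numbers `s'_j ≥ 2`: `P(2 π i, ζ(w_1(s)), ...) = 0` and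
`P(y, Z(w_1(s')), ...) ≠ 0`. So if `s` is not exceptional then every such relation at `s` holds for `(y, Z)` identically,
at all tuples at once.

Theorem. For all `κ` there are `K` and `Q` such that for all `C` and all large `N` ALL the exceptional tuples in
`[N, κ N] ^ k`, for `H = C ^ N` and for all families at once, lie on at most `K` hyperplanes
`c_1 s_1 + ... + c_k s_k = b` with integers `c_j`, not all zero, `|c_j| ≤ Q`: (1) unconditionally, if the constant first
letters of each pattern are equal and even, (2) in general for the families for which the relations between `2 π i` and the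
multiple zeta values of the (finitely many) fronts hold; for `(2 π i, ζ)` itself this is true, hence for each tuple `s` off the
hyperplanes a relation between `2 π i` and the multiple zeta values at `s` holds at all tuples `s'`. Consequently (`Thin`):

* for ALL finite sets `F_1, ..., F_k` of integers in `[N, κ N]`, however thin, at most `K ∑_i ∏_{j ≠ i} |F_j|` of the tuples
  in `F_1 × ... × F_k` are exceptional;
* for EVERY real vector `ξ` with positive coordinates which are linearly independent over `ℚ`, such as `(1, √2, √3)` or
  `(1, π)`, there are `K` and `δ > 0` such that for all `C` and all large `X` there are at most `K` real numbers `t` with the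
  following property: if `N ∈ [X, κ X]` and there is an exceptional tuple `s` with `|s_j - N ξ_j| ≤ R` for all `j`,
  `R ≤ δ X`, then `|N - t| ≤ K R` for one of the `t`. So for `R = 1` all but a bounded number of the `N ∈ [X, κ X]` have no
  exceptional tuple near `N ξ`.

(3) For a family in a domain, with `Z(s) ≠ 0` for all large odd `s` (for example the universal associator) this statement, for
all patterns and `D`, is equivalent to the statement that all polynomial relations between `2 π i` and the multiple zeta
values hold for the family (Q1 for the universal associator), and to the statement that for the patterns in one variable with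
exactly one nonconstant letter `s + b`, and for each `B`, there are arbitrarily large odd `s` for which all linear relations
with integer coefficients at most `B` hold for `Z`.

The starting file `AlmostAllCoefficients` (helper734) bounds the number of the tuples `s` in `[N, κ N] ^ k` for which a
relation fails at `s` itself by `K N ^ (k - 1)`; this says nothing about their position or about other tuples. The proof
uses the elimination of the constants between several tuples in general position of `X90/DC` (starting library): `3 ^ m`
exceptional tuples cannot be in general position, hence all of them lie on few hyperplanes determined by a maximal system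
of exceptional tuples in general position. For the other tuples the relation is a consequence of the stuffle product of the
patterns (`T9h57/HS`).
-/

set_option autoImplicit false

namespace Pool.Agent.Results.MP_807c24_nt.ExceptionalHyperplanes

open Pool.Agent.T9h57.HS
open Pool.Agent.X90.DC (fpx)
open Pool.Agent.X90.DB (Ad ix ex)
open Pool.Agent.Results.MP_807c24_nt.AlmostAllCoefficients
  (Letter AdmissiblePattern Admissible EvenFront Transfers fronts Bad IsFamily OneLargeArgument index mzv mu
    constantPart_eq mzv_fun rel_of st_of index_ne fronts_even b_to_c c_to_a)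

/-- `s` is exceptional for the family `(y, Z)`: a polynomial relation of degree at most `D` with integer coefficients of
absolute value at most `H` between `2 π i` and the multiple zeta values of the patterns at `s` fails for `(y, Z)` at some
tuple `s'` of natural numbers at least two -/
def Exceptional {k r : ℕ} (w : Fin r → List (Letter k)) (D : ℕ) (H : ℝ) {A : Type} [CommRing A] (y : A)
    (Z : List ℕ → A) (s : Fin k → ℕ) : Prop :=
  ∃ P : MvPolynomial (Fin 1 ⊕ Fin r) ℤ, P.totalDegree ≤ D ∧ (∀ m, |((P.coeff m : ℤ) : ℝ)| ≤ H) ∧
    MvPolynomial.aeval (Sum.elim (fun _ => mu) fun i => ((mzv (index s (w i)) : ℝ) : ℂ)) P = 0 ∧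
    ∃ s' : Fin k → ℕ, (∀ j, 2 ≤ s' j) ∧
      MvPolynomial.aeval (Sum.elim (fun _ => y) fun i => Z (index s' (w i))) P ≠ 0

/-- `s` is exceptional for one of the families `(y, Z)` with the property `F` -/
def ExceptionalFor {k r : ℕ} (w : Fin r → List (Letter k)) (D : ℕ)
    (F : ∀ (A : Type) [CommRing A] [Algebra ℚ A], A → (List ℕ → A) → Prop) (H : ℝ) (s : Fin k → ℕ) : Prop :=
  ∃ (A : Type) (_ : CommRing A) (_ : Algebra ℚ A) (y : A) (Z : List ℕ → A),
    IsFamily y Z ∧ F A y Z ∧ Exceptional w D H y Z s

/-- the tuples with the property `E` lie on few hyperplanes; there are few in every product set, and near every ray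
in the direction of a vector with coordinates which are linearly independent over `ℚ` -/
def Thin {k : ℕ} (E : ℝ → (Fin k → ℕ) → Prop) : Prop :=
  (∀ κ : ℕ, OnHyperplanes κ E) ∧ (∀ κ : ℕ, FewInProducts κ E) ∧
    ∀ ξ : Fin k → ℝ, (∀ j, 0 < ξ j) → LinearIndependent ℚ ξ → FewNear E ξ

theorem thin_of {k : ℕ} {E : ℝ → (Fin k → ℕ) → Prop} (h : ∀ κ, OnHyperplanes κ E)
    (hE : ∀ H H' s, H ≤ H' → E H s → E H' s) : Thin E :=
  ⟨h, fun κ => (h κ).products, fun ξ hξ hli => OnHyperplanes.near h hE ξ hξ hli⟩

theorem exceptionalFor_mono {k r : ℕ} (w : Fin r → List (Letter k)) (D : ℕ)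
    (G : ∀ (A : Type) [CommRing A] [Algebra ℚ A], A → (List ℕ → A) → Prop) (H H' : ℝ) (s : Fin k → ℕ) (h : H ≤ H')
    (hs : ExceptionalFor w D G H s) : ExceptionalFor w D G H' s := by
  obtain ⟨A, i1, i2, y, Z, h1, h2, P, h3, h4, h5⟩ := hs
  exact ⟨A, i1, i2, y, Z, h1, h2, P, h3, fun m => (h4 m).trans h, h5⟩

theorem exceptional_mono {k r : ℕ} (w : Fin r → List (Letter k)) (D : ℕ) {A : Type} [CommRing A] (y : A)
    (Z : List ℕ → A) (H H' : ℝ) (s : Fin k → ℕ) (h : H ≤ H') (hs : Exceptional w D H y Z s) :
    Exceptional w D H' y Z s := by
  obtain ⟨P, h3, h4, h5⟩ := hs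
  exact ⟨P, h3, fun m => (h4 m).trans h, h5⟩

/-- part (2) -/
theorem part2 {k r : ℕ} (w : Fin r → List (Letter k)) (hw : ∀ i, AdmissiblePattern (w i)) (D κ : ℕ) :
    OnHyperplanes κ (ExceptionalFor w D fun _ _ _ y Z => Transfers (fronts w) y Z) := by
  obtain ⟨K, Q, hK⟩ := gen2P 1 k r D w (fun i => (hw i).2) (fronts w)
    (fun i q hq hne => ⟨hne, i, by rw [constantPart_eq]; exact hq⟩) κ
  refine ⟨K, Q, fun C => ?_⟩
  obtain ⟨N₀, hN₀⟩ := hK C (fun _ => mu)
  refine ⟨N₀, fun N hN => ?_⟩
  obtain ⟨P, hP1, hP2, hP3⟩ := hN₀ N hN {s | (∀ j, N ≤ s j ∧ s j ≤ κ * N) ∧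
      ExceptionalFor w D (fun _ _ _ y Z => Transfers (fronts w) y Z) (C ^ N) s} (by
    rintro s ⟨h1, A, i1, i2, y, Z, hZ, hF, P, h2, h3, h4, s', hs', h5⟩
    refine ⟨h1, P, h2, h3, ?_, fun h => h5 ?_⟩
    · rw [← h4, mzv_fun]
      rfl
    · have h8 := h A (fun _ => y) Z (rel_of w y Z hF) (st_of hZ) s' hs'
      have h9 : ∀ i, ex Z (ix s' (w i)) = Z (index s' (w i)) :=
        fun i => Pool.Agent.X90.DB.ex_ne Z (index_ne s' (hw i).1)
      simp only [h9] at h8
      exact h8)
  exact ⟨P, hP1, hP2, fun s hs hE => hP3 s ⟨hs, hE⟩⟩

/-- part (1) -/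
theorem part1 {k r : ℕ} (w : Fin r → List (Letter k)) (hw : ∀ i, AdmissiblePattern (w i))
    (he : ∀ i, EvenFront (w i)) (D κ : ℕ) :
    OnHyperplanes κ (ExceptionalFor w D fun _ _ _ _ _ => True) := by
  refine (part2 w hw D κ).mono fun H s => ?_
  rintro ⟨A, i1, i2, y, Z, hZ, -, hB⟩
  refine ⟨A, i1, i2, y, Z, hZ, ?_, hB⟩
  intro f hf
  rw [mzv_fun] at hf
  exact Pool.Agent.N734.MZ.even_transfer_mu (fun u : {u : List ℕ // Admissible u ∧ u ∈ fronts w} => u.1)
    (fronts_even w he) y Z (st_of hZ) hZ.euler f hf

theorem a_to_b {A : Type} [CommRing A] [Algebra ℚ A] (y : A) (Z : List ℕ → A) (hZ : IsFamily y Z)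
    (h : Transfers Set.univ y Z) {k r : ℕ} (w : Fin r → List (Letter k)) (hw : ∀ i, AdmissiblePattern (w i)) (D κ : ℕ) :
    OnHyperplanes κ fun H s => Exceptional w D H y Z s := by
  refine (part2 w hw D κ).mono fun H s hB => ?_
  refine ⟨A, inferInstance, inferInstance, y, Z, hZ, ?_, hB⟩
  intro f hf
  let ρ : Fin 1 ⊕ {u : List ℕ // Admissible u ∧ u ∈ fronts w} →
      Fin 1 ⊕ {u : List ℕ // Admissible u ∧ u ∈ (Set.univ : Set (List ℕ))} :=
    Sum.map id fun u => ⟨u.1, u.2.1, trivial⟩
  have h0 : ∀ (B : Type) [CommRing B] [Algebra ℚ B] (x : B) (Y : List ℕ → B),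
      MvPolynomial.aeval (Sum.elim (fun _ => x) fun u => Y u.1) (MvPolynomial.rename ρ f) =
      MvPolynomial.aeval (Sum.elim (fun _ => x) fun u => Y u.1) f := by
    intro B _ _ x Y
    rw [MvPolynomial.aeval_rename]
    congr 2
    funext i
    rcases i with i | i
    · rfl
    · rfl
  have h1 := h (MvPolynomial.rename ρ f) (by
    rw [h0 ℂ mu fun u => ((mzv u : ℝ) : ℂ)]
    exact hf)
  rw [h0 A y Z] at h1
  exact h1

/-- statement (b): for all admissible patterns and all degrees the exceptional tuples of the family are thin -/
def ThinForAll {A : Type} [CommRing A] (y : A) (Z : List ℕ → A) : Prop :=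
  ∀ (k r : ℕ) (w : Fin r → List (Letter k)), (∀ i, AdmissiblePattern (w i)) → ∀ D : ℕ,
    Thin fun H s => Exceptional w D H y Z s

/-- **Theorem.** Let `w_1, ..., w_r` be admissible patterns in `k` variables and `D` a degree. (1) If the patterns have
even fronts then the tuples which are exceptional for one of the families are thin: for all `κ` there are `K`, `Q` such that
for all `C` and all large `N` the tuples in `[N, κ N] ^ k` which are exceptional, for the degree `D` and the height `C ^ N`, lie
on at most `K` hyperplanes with integral normal vectors `c ≠ 0`, `|c_j| ≤ Q`; hence there are few in every product set and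
near every ray whose direction has coordinates which are linearly independent over `ℚ`. (2) For arbitrary admissible
patterns the same holds for the families for which the relations between `2 π i` and the multiple zeta values of the fronts
hold. (3) For a family `(y, Z)` in a domain, with `Z(s) ≠ 0` for all large odd `s`, the following are equivalent: all
polynomial relations between `2 π i` and the multiple zeta values hold for `(y, Z)`; for all patterns and `D` the exceptional
tuples of `(y, Z)` are thin; for all patterns with exactly one nonconstant letter `s + b` and all `B` there are arbitrarily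
large odd `s` for which all linear relations with integer coefficients at most `B` between the multiple zeta values of the
patterns at `s` hold for `Z`. -/
theorem result :
    (∀ (k r : ℕ) (w : Fin r → List (Letter k)), (∀ i, AdmissiblePattern (w i)) → (∀ i, EvenFront (w i)) →
      ∀ D : ℕ, Thin (ExceptionalFor w D fun _ _ _ _ _ => True)) ∧
    (∀ (k r : ℕ) (w : Fin r → List (Letter k)), (∀ i, AdmissiblePattern (w i)) → ∀ D : ℕ,
      Thin (ExceptionalFor w D fun _ _ _ y Z => Transfers (fronts w) y Z)) ∧
    ∀ (A : Type) [CommRing A] [IsDomain A] [Algebra ℚ A] (y : A) (Z : List ℕ → A), IsFamily y Z →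
      (∃ s₀, ∀ s, s₀ ≤ s → Odd s → Z [s] ≠ 0) →
      (Transfers Set.univ y Z ↔ ThinForAll y Z) ∧ (ThinForAll y Z ↔ OneLargeArgument Z) := by
  refine ⟨fun k r w hw he D => thin_of (part1 w hw he D) (exceptionalFor_mono w D _),
    fun k r w hw D => thin_of (part2 w hw D) (exceptionalFor_mono w D _), ?_⟩
  intro A _ _ _ y Z hZ hs
  obtain ⟨s₀, hne⟩ := hs
  have hab : Transfers Set.univ y Z → ThinForAll y Z := fun h k r w hw D =>
    thin_of (a_to_b y Z hZ h w hw D) (exceptional_mono w D y Z)
  have hbc : ThinForAll y Z → OneLargeArgument Z := by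
    intro h
    refine b_to_c y Z fun k r w hw D κ => ?_
    obtain ⟨K, hK⟩ := ((h k r w hw D).1 κ).few
    refine ⟨K, fun C => ?_⟩
    obtain ⟨N₀, hN⟩ := hK C
    refine ⟨N₀ + 2, fun N hN' => (Set.ncard_le_ncard ?_ ?_).trans (hN N (by omega))⟩
    · rintro s ⟨h1, P, h2, h3, h4, h5⟩
      exact ⟨h1, P, h2, h3, h4, s, fun j => le_trans (by omega) (h1 j).1, h5⟩
    · refine (Set.Finite.pi' (t := fun _ : Fin k => Set.Icc N (κ * N)) fun _ => Set.finite_Icc _ _).subset ?_
      intro s hs j
      exact ⟨(hs.1 j).1, (hs.1 j).2⟩
  have hca : OneLargeArgument Z → Transfers Set.univ y Z := fun h => c_to_a y Z hZ s₀ hne h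
  exact ⟨⟨hab, fun h => hca (hbc h)⟩, ⟨hbc, fun h => hab (hca h)⟩⟩

end Pool.Agent.Results.MP_807c24_nt.ExceptionalHyperplanes
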