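import Pool.Agent.T9h86.MZ.Lin
import Pool.Agent.Results.MP_807c24_nt.AlmostAllCoefficients

/-!
# MP_807c24_nt: relations between the coefficients of the KZ associator for the words with exponents near the values of
# generic systems of linear forms

A pattern in `k` variables is a nonempty list of letters `b + u_1 s_1 + ... + u_k s_k`; at a tuple `s` of natural numbers
it gives an index. A family `(y, Z)` is an element `y` of a commutative `ℚ`-algebra and a function `Z` from the indices to the
algebra with the stuffle product and with Euler's formula `Z(2 m) = - B_{2m} y ^ (2 m) / (2 (2 m)!)`. For an associator `(μ, Φ)`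
the element `y = μ` and the coefficients `Z(u_1, ..., u_r)` of the words `A ^ (u_1 - 1) B ... A ^ (u_r - 1) B` in `Φ` (up to sign)
are a family, by the theorem of Furusho that associators satisfy the double shuffle relations; for the KZ associator it is
`2 π i` and the multiple zeta values. The tuple `s` is bad for `(y, Z)` (and `D`, `H`) if a polynomial relation of degree at
most `D` with integer coefficients at most `H` between `2 π i` and the multiple zeta values of the patterns at `s` fails for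
`(y, Z)`. For the universal associator this means that the polynomial is in the kernel of `φ_KZ` and not in `I`.

Let `v_a`, `a` in a countable set, be vectors in `ℝ^n`, `O(X^(τ + ε))` of them of norm at most `X` for every `ε > 0`: for
instance the vectors `(b_1^(m_1), …, b_n^(m_n))`, `b_j > 1`, for all `m_1, …, m_n`, with `τ = 0`, or `(1, m, …, m^d)` with
`τ = 1 / d`. There is ONE set `E₀` of real matrices with `k` rows and `n` columns, of Hausdorff dimension at most
`k (n - 1) + (k - 1 + τ) / (1 - θ)`, a null set if `τ + k θ < 1`, such that for all `α` outside `E₀`, for ALL admissible patterns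
`w_1, …, w_r` in `k` variables and all `D`, `κ`, `C`, `c`: for all but finitely many `a`, NO tuple `s` of natural numbers with
`|s_l - (α v_a)_l| ≤ c |v_a|^θ` and `T ≤ s_l ≤ κ T` for all `l` is bad for `D` and `H = C ^ T`: for all families, if the constant
first letters of each pattern are equal and even (this is unconditional), and, for arbitrary patterns, for the families for
which the relations between `2 π i` and the multiple zeta values of the fronts hold.

The starting theorem `AlmostAllCoefficients` of this page (helper734) bounds the number of the bad tuples in `[N, κ N] ^ k` by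
`K N ^ (k - 1)`. The tool for linear forms is `Pool.Agent.N251.LF` (helper251).
-/

set_option autoImplicit false

namespace Pool.Agent.Results.MP_807c24_nt.GenericLinearForms

open MeasureTheory
open Pool.Agent.N251.LF (Fam Sq)
open Pool.Agent.T9h86.MZ (NoneNear FewAll lin_many null_set)
open Pool.Agent.Results.MP_807c24_nt.AlmostAllCoefficients
  (Letter AdmissiblePattern EvenFront Transfers fronts Bad BadFor IsFamily part1 part2)

theorem badFor_mono {k r : ℕ} (w : Fin r → List (Letter k)) (D : ℕ)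
    (G : ∀ (A : Type) [CommRing A] [Algebra ℚ A], A → (List ℕ → A) → Prop) (H H' : ℝ) (s : Fin k → ℕ) (h : H ≤ H')
    (hs : BadFor w D G H s) : BadFor w D G H' s := by
  obtain ⟨A, i1, i2, y, Z, h1, h2, P, h3, h4, h5⟩ := hs
  exact ⟨A, i1, i2, y, Z, h1, h2, P, h3, fun m => (h4 m).trans h, h5⟩

/-- **Theorem.** Let `k ≥ 1` and let `v` be a family of vectors in `ℝ^n` with `O_ε(X^(τ + ε))` members of norm at most `X`
(`Fam v τ`), `τ ≥ 0`, `θ < 1`. There is a set `E₀` of real `k × n` matrices, of Hausdorff dimension at most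
`k (n - 1) + (k - 1 + τ) / (1 - θ)`, of measure zero if `n ≥ 1` and `τ + k θ < 1`, such that for all `α` outside `E₀`, all
admissible patterns `w_1, …, w_r` in `k` variables and all `D`: (1) for all `κ`, `C`, `c`, for all but finitely many `a`, no tuple
`s` within `c ‖v_a‖ ^ θ` of `α v_a` with `T ≤ s_l ≤ κ T`, `T ≥ 1`, is bad, for `D` and `H = C ^ T`, for a family
`(y, Z)` for which the relations between `2 π i` and the multiple zeta values of the fronts hold; (2) if the constant first
letters of each pattern are equal and even, the same holds for all families `(y, Z)`. (3) Examples of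
`v`: `(1, m, …, m^d)` with `τ = 1 / d`; `(b_1^(m_1), …, b_n^(m_n))`, `b_j > 1`, with `τ = 0`; `(m_1^(a_1), …, m_n^(a_n))`,
`a_j > 0`, with `τ = ∑ 1 / a_j`; `(u_1(m_1), …, u_n(m_n))` for sequences of exponents `τ_j`, with `τ = ∑ τ_j`. -/
theorem result :
    (∀ k : ℕ, 1 ≤ k → ∀ (n : ℕ) (ι : Type) (v : ι → Fin n → ℝ) (τ θ : ℝ), Fam v τ → 0 ≤ τ → θ < 1 →
      ∃ E₀ : Set (Fin k × Fin n → ℝ),
        dimH E₀ ≤ ENNReal.ofReal ((k : ℝ) * ((n : ℝ) - 1) + ((k : ℝ) - 1 + τ) / (1 - θ)) ∧
        (1 ≤ n → τ + k * θ < 1 → volume E₀ = 0) ∧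
        ∀ α, α ∉ E₀ → ∀ (r : ℕ) (w : Fin r → List (Letter k)), (∀ i, AdmissiblePattern (w i)) → ∀ D : ℕ,
          NoneNear v θ (BadFor w D fun _ _ _ y Z => Transfers (fronts w) y Z) α ∧
          ((∀ i, EvenFront (w i)) → NoneNear v θ (BadFor w D fun _ _ _ _ _ => True) α)) ∧
    (∀ d : ℕ, 1 ≤ d → Fam (fun (m : ℕ) (j : Fin (d + 1)) => (m : ℝ) ^ (j : ℕ)) (1 / d)) ∧
    (∀ (n : ℕ) (b : Fin n → ℝ), (∀ j, 1 < b j) → Fam (fun (m : Fin n → ℕ) (j : Fin n) => b j ^ m j) 0) ∧
    (∀ (n : ℕ) (a : Fin n → ℝ), (∀ j, 0 < a j) →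
      Fam (fun (m : Fin n → ℕ) (j : Fin n) => (m j : ℝ) ^ a j) (∑ j, 1 / a j)) ∧
    ∀ (n : ℕ) (u : Fin n → ℕ → ℝ) (τ : Fin n → ℝ), (∀ j, Sq (u j) (τ j)) →
      Fam (fun (m : Fin n → ℕ) (j : Fin n) => u j (m j)) (∑ j, τ j) := by
  refine ⟨fun k hk n ι v τ θ hv hτ hθ => ?_, Pool.Agent.N251.LF.examples⟩
  let I : Type := Σ r : ℕ, {w : Fin r → List (Letter k) // ∀ i, AdmissiblePattern (w i)} × ℕ
  obtain ⟨E₁, h1, h2⟩ := lin_many (I := I) hk
    (E := fun i => BadFor i.2.1.1 i.2.2 fun _ _ _ y Z => Transfers (fronts i.2.1.1) y Z)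
    (fun i H H' s => badFor_mono i.2.1.1 i.2.2 _ H H' s) (fun i κ => part2 i.2.1.1 i.2.1.2 i.2.2 κ) v hv hτ hθ
  let J : Type := Σ r : ℕ, {w : Fin r → List (Letter k) // (∀ i, AdmissiblePattern (w i)) ∧ ∀ i, EvenFront (w i)} × ℕ
  obtain ⟨E₂, h3, h4⟩ := lin_many (I := J) hk
    (E := fun i => BadFor i.2.1.1 i.2.2 fun _ _ _ _ _ => True)
    (fun i H H' s => badFor_mono i.2.1.1 i.2.2 _ H H' s)
    (fun i κ => part1 i.2.1.1 i.2.1.2.1 i.2.1.2.2 i.2.2 κ) v hv hτ hθ
  have h5 : dimH (E₁ ∪ E₂) ≤ ENNReal.ofReal ((k : ℝ) * ((n : ℝ) - 1) + ((k : ℝ) - 1 + τ) / (1 - θ)) := by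
    rw [dimH_union]
    exact max_le h1 h3
  refine ⟨E₁ ∪ E₂, h5, fun hn hlt => null_set hk hn hθ hlt h5, fun α hα r w hw D => ⟨?_, fun he => ?_⟩⟩
  · exact h2 α (fun h => hα (Or.inl h)) ⟨r, ⟨w, hw⟩, D⟩
  · exact h4 α (fun h => hα (Or.inr h)) ⟨r, ⟨w, hw, he⟩, D⟩

end Pool.Agent.Results.MP_807c24_nt.GenericLinearForms
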