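import Pool.Agent.T9h86.MZ.Sub
import Pool.Agent.Results.MP_807c24_nt.AlmostAllCoefficients

/-!
# MP_807c24_nt: relations between the coefficients of the KZ associator for the words with exponents near the orders of
# subgroups of `F_p^*`

A pattern in `k` variables is a nonempty list of letters `b + u_1 s_1 + ... + u_k s_k`; at a tuple `s` of natural numbers
it gives an index. A family `(y, Z)` is an element `y` of a commutative `ℚ`-algebra and a function `Z` from the indices to the
algebra with the stuffle product and with Euler's formula `Z(2 m) = - B_{2m} y ^ (2 m) / (2 (2 m)!)`. For an associator `(μ, Φ)`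
the element `y = μ` and the coefficients `Z(u_1, ..., u_r)` of the words `A ^ (u_1 - 1) B ... A ^ (u_r - 1) B` in `Φ` (up to sign)
are a family, by the theorem of Furusho that associators satisfy the double shuffle relations; for the KZ associator it is
`2 π i` and the multiple zeta values. The tuple `s` is bad for `(y, Z)` (and `D`, `H`) if a polynomial relation of degree at
most `D` with integer coefficients at most `H` between `2 π i` and the multiple zeta values of the patterns at `s` fails for
`(y, Z)`. For the universal associator this means that the polynomial is in the kernel of `φ_KZ` and not in `I`.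

Let `G_1, …, G_k` be real sequences with steps bounded below by a positive constant and growth at most `v^d`, `θ ≥ 0`,
`β = d (k - 1) + k θ < k`, and `0 ≤ c < 1`. For all `k`-tuples of primes `p_i ≤ X` but `O(X^(k - η))`,
`η < (1 - c) (k - β) / 2`: for the orders `n_i` of ALL subgroups `H_i` of `F_{p_i}^*` which contain an integer `a_i`,
`2 ≤ a_i ≤ X^c` (for example the subgroups generated by such integers), NO tuple `s` of natural numbers with
`|s_i - G_i n_i| ≤ n_i^θ` (so also the tuple `s = n` itself) and `T ≤ s_i ≤ κ T` is bad for `D` and `H = C ^ T`: for all families,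
if the constant first letters of each pattern are equal and even (this is unconditional), and, for arbitrary patterns, for
the families for which the relations between `2 π i` and the multiple zeta values of the fronts hold.

The starting theorem `AlmostAllCoefficients` of this page (helper734) bounds the number of the bad tuples in `[N, κ N] ^ k` by
`K N ^ (k - 1)`, all of which may be tuples of orders of subgroups, for many primes. The case `k = 1` of the tool
(`Pool.Agent.T9h59.OR`) is from helper59; `Pool.Agent.T9h86.MZ` extends it to tuples of primes.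
-/

set_option autoImplicit false

namespace Pool.Agent.Results.MP_807c24_nt.SubgroupOrders

open Pool.Agent.N733.TG (Expanding expanding_pow)
open Pool.Agent.T9h59.OR (SubOrder subOrder_orderOf)
open Pool.Agent.T9h86.MZ (sub_powers)
open Pool.Agent.Results.MP_807c24_nt.AlmostAllCoefficients
  (Letter AdmissiblePattern EvenFront Transfers fronts Bad BadFor IsFamily part1 part2)

/-- for all `k`-tuples of primes `p_i ≤ X` but `M X ^ (k - η)`: no tuple `s` within `n_i ^ θ` of `G_i n_i` in the cone
`T ≤ s_i ≤ κ T`, `T ≥ 1`, has the property `E (C ^ T)`, for the orders `n_i` of all subgroups of `F_{p_i}^*` which contain an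
integer `a_i`, `2 ≤ a_i ≤ X ^ c` -/
def NoneNearOrders {k : ℕ} (G : Fin k → ℕ → ℝ) (θ c η : ℝ) (κ : ℕ) (C : ℝ) (E : ℝ → (Fin k → ℕ) → Prop) : Prop :=
  ∃ M : ℝ, ∀ X : ℕ, 1 ≤ X →
    (({p : Fin k → ℕ | (∀ i, (p i).Prime ∧ p i ≤ X) ∧
      ¬ ∀ n : Fin k → ℕ, (∀ i, SubOrder ((X : ℝ) ^ c) (p i) (n i)) → ∀ (s : Fin k → ℕ) (T : ℕ), 1 ≤ T →
        (∀ i, T ≤ s i ∧ s i ≤ κ * T) → (∀ i, |(s i : ℝ) - G i (n i)| ≤ (n i : ℝ) ^ θ) → ¬ E (C ^ T) s}.ncard : ℕ) : ℝ) ≤
      M * (X : ℝ) ^ ((k : ℝ) - η)

theorem badFor_mono {k r : ℕ} (w : Fin r → List (Letter k)) (D : ℕ)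
    (G : ∀ (A : Type) [CommRing A] [Algebra ℚ A], A → (List ℕ → A) → Prop) (H H' : ℝ) (s : Fin k → ℕ) (h : H ≤ H')
    (hs : BadFor w D G H s) : BadFor w D G H' s := by
  obtain ⟨A, i1, i2, y, Z, h1, h2, P, h3, h4, h5⟩ := hs
  exact ⟨A, i1, i2, y, Z, h1, h2, P, h3, fun m => (h4 m).trans h, h5⟩

/-- **Theorem.** Let `k ≥ 1`, let `G_1, …, G_k` have steps `≥ a > 0` and growth at most `v ^ d`, let `θ ≥ 0`,
`β = d (k - 1) + k θ < k`, `0 ≤ c < 1`, `η < (1 - c) (k - β) / 2`. For all admissible patterns `w_1, …, w_r` in `k` variables and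
all `D`, `κ`, `C`: (1) for all `k`-tuples of primes `p_i ≤ X` but `M X ^ (k - η)`, for the orders `n_i` of ALL subgroups of
`F_{p_i}^*` which contain an integer `a_i`, `2 ≤ a_i ≤ X ^ c`, no tuple `s` with `|s_i - G_i n_i| ≤ n_i ^ θ` and
`T ≤ s_i ≤ κ T`, `T ≥ 1`, is bad, for `D` and `H = C ^ T`, for a family `(y, Z)` for which the relations between
`2 π i` and the multiple zeta values of the fronts hold; (2) if the constant first letters of each pattern are equal and even,
the same holds for all families `(y, Z)`. (3) The order of `a` modulo `p` is the order of such a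
subgroup; `α v ^ d` with `α > 0`, `d ≥ 1` is an example of `G_i`. -/
theorem result :
    (∀ k : ℕ, 1 ≤ k → ∀ (G : Fin k → ℕ → ℝ) (d θ : ℝ), (∀ i, Expanding (G i) d) → 0 ≤ θ →
      d * ((k : ℝ) - 1) + k * θ < k → ∀ c η : ℝ, 0 ≤ c → c < 1 →
      η < (1 - c) * (k - (d * ((k : ℝ) - 1) + k * θ)) / 2 →
      ∀ (r : ℕ) (w : Fin r → List (Letter k)), (∀ i, AdmissiblePattern (w i)) → ∀ (D κ : ℕ) (C : ℝ),
        NoneNearOrders G θ c η κ C (BadFor w D fun _ _ _ y Z => Transfers (fronts w) y Z) ∧
        ((∀ i, EvenFront (w i)) → NoneNearOrders G θ c η κ C (BadFor w D fun _ _ _ _ _ => True))) ∧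
    (∀ (B : ℝ) (p a : ℕ), p.Prime → 2 ≤ a → (a : ℝ) ≤ B → ¬ p ∣ a → SubOrder B p (orderOf (a : ZMod p))) ∧
    ∀ α d : ℝ, 0 < α → 1 ≤ d → Expanding (fun v => α * (v : ℝ) ^ d) d := by
  refine ⟨fun k hk G d θ hG hθ h1 c η hc0 hc1 hη r w hw D κ C => ⟨?_, fun he => ?_⟩,
    fun B p a hp ha haB hpa => subOrder_orderOf hp ha haB hpa, fun α d hα hd => expanding_pow hα hd⟩
  · exact sub_powers hk (fun H H' s => badFor_mono w D _ H H' s) (fun κ => part2 w hw D κ) hG hθ h1 hc0 hc1 hη κ C
  · exact sub_powers hk (fun H H' s => badFor_mono w D _ H H' s) (fun κ => part1 w hw he D κ) hG hθ h1 hc0 hc1 hη κ C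

end Pool.Agent.Results.MP_807c24_nt.SubgroupOrders
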