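import Pool.Agent.T9h86.MZ.Orb
import Pool.Agent.Results.MP_807c24_nt.AlmostAllCoefficients

/-!
# MP_807c24_nt: relations between the coefficients of the KZ associator for the words with exponents near the members of the
# orbits of Euler's function

A pattern in `k` variables is a nonempty list of letters `b + u_1 s_1 + ... + u_k s_k`; at a tuple `s` of natural numbers
it gives an index. A family `(y, Z)` is an element `y` of a commutative `ℚ`-algebra and a function `Z` from the indices to the
algebra with the stuffle product and with Euler's formula `Z(2 m) = - B_{2m} y ^ (2 m) / (2 (2 m)!)`. For an associator `(μ, Φ)`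
the element `y = μ` and the coefficients `Z(u_1, ..., u_r)` of the words `A ^ (u_1 - 1) B ... A ^ (u_r - 1) B` in `Φ` (up to sign)
are a family, by the theorem of Furusho that associators satisfy the double shuffle relations; for the KZ associator it is
`2 π i` and the multiple zeta values. The tuple `s` is bad for `(y, Z)` (and `D`, `H`) if a polynomial relation of degree at
most `D` with integer coefficients at most `H` between `2 π i` and the multiple zeta values of the patterns at `s` fails for
`(y, Z)`. For the universal associator this means that the polynomial is in the kernel of `φ_KZ` and not in `I`.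

Let `f_1, …, f_k` be functions like `m`, `φ(m)`, `σ(m)` (class `LM`), let `φ_j` be the `j`-th iterate of Euler's function, let
`G_1, …, G_k` be real sequences with steps bounded below by a positive constant and growth at most `v^d`, `θ ≥ 0`,
`d (k - 1) + k θ < k`. For almost all `m ∈ ℕ^k` (all but `o(N^k)` of the `m ∈ [1, N]^k`), for ALL `j_1, …, j_k ≤ J`, with
`n_i = f_i(φ_{j_i}(m_i))`: NO tuple `s` of natural numbers with `|s_i - G_i n_i| ≤ n_i^θ` and `T ≤ s_i ≤ κ T` is bad for `D` and
`H = C ^ T`: for all families, if the constant first letters of each pattern are equal and even (this is unconditional), and,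
for arbitrary patterns, for the families for which the relations between `2 π i` and the multiple zeta values of the fronts
hold.

The starting theorem `AlmostAllCoefficients` of this page (helper734) bounds the number of the bad tuples in `[N, κ N] ^ k` by
`K N ^ (k - 1)`; for the iterates of Euler's function this bound alone does not suffice, as their values are a thin set, and a
value can have many preimages. The starting file `CarmichaelMultiples` is for the multiples of the Carmichael function. The
case `k = 1` of the tool (`Pool.Agent.N760.IT`, uniform in the set of the bad numbers) is from helper760; `Pool.Agent.T9h86.MZ`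
extends it to tuples of orbits.
-/

set_option autoImplicit false

namespace Pool.Agent.Results.MP_807c24_nt.TotientOrbits

open Pool.Agent.N733.TG (LM Expanding expanding_pow)
open Pool.Agent.T9h86.MZ (orb_powers)
open Pool.Agent.Results.MP_807c24_nt.AlmostAllCoefficients
  (Letter AdmissiblePattern EvenFront Transfers fronts Bad BadFor IsFamily part1 part2)

/-- for all but `ε N ^ k` of the `m ∈ [1, N] ^ k`, `N ≥ N₀`: no tuple `s` within `n_i ^ θ` of `G_i n_i` in the cone
`T ≤ s_i ≤ κ T`, `T ≥ 1`, has the property `E (C ^ T)`, for all `n_i = f_i (φ_{j_i} (m_i))`, `j_i ≤ J`, where `φ_j` is the `j`-th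
iterate of Euler's function -/
def NoneNearOrbits {k : ℕ} (f : Fin k → ℕ → ℕ) (G : Fin k → ℕ → ℝ) (θ : ℝ) (κ : ℕ) (C : ℝ) (E : ℝ → (Fin k → ℕ) → Prop) :
    Prop :=
  ∀ (J : ℕ) (ε : ℝ), 0 < ε → ∃ N₀ : ℕ, ∀ N : ℕ, N₀ ≤ N →
    (({m : Fin k → ℕ | (∀ i, 1 ≤ m i ∧ m i ≤ N) ∧
      ¬ ∀ j : Fin k → ℕ, (∀ i, j i ≤ J) → ∀ (s : Fin k → ℕ) (T : ℕ), 1 ≤ T →
        (∀ i, T ≤ s i ∧ s i ≤ κ * T) →
        (∀ i, |(s i : ℝ) - G i (f i (Nat.totient^[j i] (m i)))| ≤ ((f i (Nat.totient^[j i] (m i)) : ℕ) : ℝ) ^ θ) →
        ¬ E (C ^ T) s}.ncard : ℕ) : ℝ) ≤ ε * (N : ℝ) ^ k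

theorem badFor_mono {k r : ℕ} (w : Fin r → List (Letter k)) (D : ℕ)
    (G : ∀ (A : Type) [CommRing A] [Algebra ℚ A], A → (List ℕ → A) → Prop) (H H' : ℝ) (s : Fin k → ℕ) (h : H ≤ H')
    (hs : BadFor w D G H s) : BadFor w D G H' s := by
  obtain ⟨A, i1, i2, y, Z, h1, h2, P, h3, h4, h5⟩ := hs
  exact ⟨A, i1, i2, y, Z, h1, h2, P, h3, fun m => (h4 m).trans h, h5⟩

/-- **Theorem.** Let `k ≥ 1`, let `f_1, …, f_k` be in the class `LM`, let `G_1, …, G_k` have steps `≥ a > 0` and growth at most
`v ^ d`, let `θ ≥ 0`, `d (k - 1) + k θ < k`. For all admissible patterns `w_1, …, w_r` in `k` variables and all `D`, `κ`, `C`, `J`: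
(1) for almost all `m ∈ ℕ ^ k`, for all `j_1, …, j_k ≤ J` and `n_i = f_i (φ_{j_i} (m_i))`, no tuple `s` with
`|s_i - G_i n_i| ≤ n_i ^ θ` and `T ≤ s_i ≤ κ T`, `T ≥ 1`, is bad, for `D` and `H = C ^ T`, for a family `(y, Z)`
for which the relations between `2 π i` and the multiple zeta values of the fronts hold; (2) if the constant first letters of
each pattern are equal and even, the same holds for all families `(y, Z)`. (3) `m`, `φ(m)` and the
sum of the divisors of `m` are in the class `LM`, and `α v ^ d` with `α > 0`, `d ≥ 1` is an example of `G_i`. -/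
theorem result :
    (∀ k : ℕ, 1 ≤ k → ∀ (f : Fin k → ℕ → ℕ) (G : Fin k → ℕ → ℝ) (d θ : ℝ), (∀ i, LM (f i)) → (∀ i, Expanding (G i) d) →
      0 ≤ θ → d * ((k : ℝ) - 1) + k * θ < k →
      ∀ (r : ℕ) (w : Fin r → List (Letter k)), (∀ i, AdmissiblePattern (w i)) → ∀ (D κ : ℕ) (C : ℝ),
        NoneNearOrbits f G θ κ C (BadFor w D fun _ _ _ y Z => Transfers (fronts w) y Z) ∧
        ((∀ i, EvenFront (w i)) → NoneNearOrbits f G θ κ C (BadFor w D fun _ _ _ _ _ => True))) ∧
    (LM (fun m => m) ∧ LM Nat.totient ∧ LM (fun m => ∑ d ∈ m.divisors, d)) ∧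
    ∀ α d : ℝ, 0 < α → 1 ≤ d → Expanding (fun v => α * (v : ℝ) ^ d) d := by
  refine ⟨fun k hk f G d θ hf hG hθ h1 r w hw D κ C => ⟨fun J ε hε => ?_, fun he J ε hε => ?_⟩, ?_,
    fun α d hα hd => expanding_pow hα hd⟩
  · exact orb_powers hk (fun H H' s => badFor_mono w D _ H H' s) (fun κ => part2 w hw D κ) hf hG hθ h1 κ C J ε hε
  · exact orb_powers hk (fun H H' s => badFor_mono w D _ H H' s) (fun κ => part1 w hw he D κ) hf hG hθ h1 κ C J ε hε
  · exact ⟨Pool.Agent.N760.IT.lm_id, Pool.Agent.N733.TG.lm_totient, Pool.Agent.N733.TG.lm_sigma⟩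

end Pool.Agent.Results.MP_807c24_nt.TotientOrbits
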